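import Mathlib
import Pool.Agent.Run7.h238.Y.FinY

/-!
# The rank part of the Birch and Swinnerton-Dyer conjecture for `y² + q y = x³` over a majority of the
cyclic cubic fields in which `3` ramifies

`q` is a prime `≡ 2` or `5` modulo `9` and `E_D : y² + D y = x³`.  The cyclic cubic fields `F` in which
`3` ramifies are the fields `ℚ(θ)`, `θ³ = 3 n θ + n u`, where `u`, `v` are positive integers, `3 ∤ v`,
and `4 n = u² + 3 v²` is four times a squarefree number prime to `3`; `F ↦ (u, v)` is a bijection of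
the set of these subfields of `ℂ` onto the set of these pairs, and `disc F = (9 n)²`.

* The property `Good K q F`, `K = ℚ(√-3)`: the twist `E_{q n β}`, `β = (u + v √-3) / 2`, has only
  finitely many points over `K`, and the `3`-primary part of its Tate-Shafarevich group is trivial
  (`F(√-3) = K(∛(n β))`).
* For the good `F` the `L`-function of `y² + q y = x³` over `F` is not zero at `1`, the curve has
  finitely many points over `F`, and `3` kills the `3`-primary part of `Ш(E_q / F)`.
* The proportion of the good fields among the cyclic cubic fields in which `3` ramifies and whose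
  conductor `9 n` is at most `X` tends to `∏_{i ≥ 0} (1 - 3^{-(2 i + 1)}) = 0.6390...`.

Proof: (1) the `3`-descent over `K` (the starting files `Y703`, `R395`, `R432`, `N883` and the file
`Run7/h707/TC/Crit3`) turns `Good` into the condition that a system of `2 t + 1` linear equations over
the field with three elements (`t` the number of the prime divisors of `n`) has no nonzero solution;
the coefficients are the cubic residue symbols of the prime divisors of `n` and of `q`, and the
residues of `(p - 1) / 3` (`Run7/h238/Y/ECr`); (2) for random symbols the matrix of the system has an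
antisymmetric kernel with a symmetric border of a new shape (one more unknown, and the residues on
the diagonal), and the probability is the product (`Run7/h238/Y/LAY`); (3) the symbols are
equidistributed by the large sieve for the cubic symbols and a theorem of Halász
(`Run7/h238/Y/BoxY` to `LawY`); (4) the dictionary of the fields and the pairs (`Run7/h289/RD`), the
`L`-function and the group of points over `F` (`Run7/h741/CR`).

Joint work of helper238, helper289 and helper741; see also the headers of the files that are imported.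
-/

set_option autoImplicit false

namespace Pool.Agent.Results.MP_1d384c_nt.CubicFieldsRamifiedAtThree

open NumberField
open Pool.Agent.TH841.NF.D (Sha)
open scoped Classical

/-- The curve `E_D : y² + D y = x³`. -/
def curve {F : Type} [Field F] (D : F) : WeierstrassCurve F := ⟨0, 0, D, 0, 0⟩

/-- `W` is an elliptic curve over `F`, `W(F)` is finite, and the `L`-series of `W` continues
analytically from `Re s > 3 / 2` to a connected open set that contains `1`, where its order of
vanishing is equal to the rank of `W(F)`. -/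
def RankZero {F : Type} [Field F] [NumberField F] (W : WeierstrassCurve F) : Prop :=
  W.IsElliptic ∧ Finite W.toAffine.Point ∧
  ∃ (U : Set ℂ) (L : ℂ → ℂ),
    IsOpen U ∧ IsConnected U ∧ {s : ℂ | (3 / 2 : ℝ) < s.re} ⊆ U ∧ (1 : ℂ) ∈ U ∧
    AnalyticOnNhd ℂ L U ∧ (∀ s : ℂ, (3 / 2 : ℝ) < s.re → L s = W.LSeries s) ∧
    (∀ r : ℕ, r < Module.finrank ℤ W.toAffine.Point → iteratedDeriv r L 1 = 0) ∧
    iteratedDeriv (Module.finrank ℤ W.toAffine.Point) L 1 ≠ 0

/-- `E_D(K)` is finite and the `3`-primary part of `Ш(E_D / K)` is trivial. -/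
def FiniteAndTrivial {K : Type} [Field K] [NumberField K] (D : K) : Prop :=
  Finite (curve D).toAffine.Point ∧ ∀ (k : ℕ) (x : Sha (curve D)), 3 ^ k • x = 0 → x = 0

/-- `F` is a cyclic cubic field in which `3` ramifies. -/
def IsRamifiedCyclicCubic (F : Type) [Field F] [NumberField F] : Prop :=
  Module.finrank ℚ F = 3 ∧ IsGalois ℚ F ∧ (3 : ℤ) ∣ discr F

/-- The subfields `F` of `ℂ` that are cyclic cubic fields of conductor at most `X`, in which `3`
ramifies (the conductor is the square root of the discriminant). -/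
def fields (X : ℕ) : Set (Subfield ℂ) :=
  {F | ∃ _ : NumberField F, IsRamifiedCyclicCubic F ∧ discr F ≤ (X : ℤ) ^ 2}

/-- `F` is the field of the pair `(u, v)`, with conductor `9 n`. -/
def IsPair (F : Type) [Field F] [NumberField F] (u v n : ℕ) : Prop :=
  0 < u ∧ 0 < v ∧ ¬ 3 ∣ v ∧ 4 * n = u ^ 2 + 3 * v ^ 2 ∧ Squarefree n ∧ ¬ 3 ∣ n ∧
    discr F = (9 * (n : ℤ)) ^ 2 ∧ ∃ θ : F, θ ^ 3 = 3 * (n : F) * θ + (n : F) * (u : F)

/-- `F` is good for `q`: for the pair `(u, v)` of `F`, the twist of `E` by `q n β`,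
`β = (u + v √-3) / 2`, has finitely many points over `K` and the `3`-primary part of its
Tate-Shafarevich group is trivial. -/
def Good (K : Type) [Field K] [NumberField K] (q : ℕ) (F : Type) [Field F] [NumberField F] : Prop :=
  ∃ u v n : ℕ, IsPair F u v n ∧ ∀ s : K, s ^ 2 = -3 →
    FiniteAndTrivial ((q : K) * (n : K) * (((u : K) + (v : K) * s) / 2))

section proof

open Pool.Agent.Y696.CTK (ED)
open Pool.Agent.Run7.h289.RD (IsPair' pair_of')

theorem rank_zero {F : Type} [Field F] [NumberField F] {q : ℕ} (hq : q ≠ 0)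
    (hf : Finite (ED ((q : ℕ) : F)).toAffine.Point)
    (h : ∃ Λ : ℂ → ℂ, AnalyticOnNhd ℂ Λ {s | (1 / 2 : ℝ) < s.re} ∧ Λ 1 ≠ 0 ∧
      ∀ s : ℂ, 3 / 2 < s.re → Λ s = (ED ((q : ℕ) : F)).LSeries s) :
    RankZero (curve (q : F)) := by
  obtain ⟨Λ, h1, h2, h3⟩ := h
  have hfin : Finite (curve (q : F)).toAffine.Point := hf
  have hrk : Module.finrank ℤ (curve (q : F)).toAffine.Point = 0 := by
    rw [Module.finrank_eq_zero_iff_isTorsion]
    intro x
    have hc : Nat.card (curve (q : F)).toAffine.Point ≠ 0 := Nat.card_pos.ne'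
    refine ⟨⟨(Nat.card (curve (q : F)).toAffine.Point : ℤ), ?_⟩, ?_⟩
    · exact mem_nonZeroDivisors_of_ne_zero (by exact_mod_cast hc)
    · show ((Nat.card (curve (q : F)).toAffine.Point : ℕ) : ℤ) • x = 0
      rw [natCast_zsmul]
      exact card_nsmul_eq_zero'
  refine ⟨Pool.Agent.R432.JG.ell hq, hfin, {s | (1 / 2 : ℝ) < s.re}, Λ, ?_, ?_, ?_, ?_, h1, h3,
    ?_, ?_⟩
  · exact isOpen_lt continuous_const Complex.continuous_re
  · refine ⟨⟨1, ?_⟩, (convex_halfSpace_re_gt _).isPreconnected⟩
    show (1 / 2 : ℝ) < (1 : ℂ).re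
    norm_num
  · intro s hs
    have hs' : (3 / 2 : ℝ) < s.re := hs
    show (1 / 2 : ℝ) < s.re
    linarith
  · show (1 / 2 : ℝ) < (1 : ℂ).re
    norm_num
  · intro r hr
    rw [hrk] at hr
    omega
  · rw [hrk, iteratedDeriv_zero]
    exact h2

theorem pair_iff {F : Type} [Field F] [NumberField F] {u v : ℕ} :
    IsPair' F u v ↔ ∃ n, IsPair F u v n := by
  constructor
  · rintro ⟨h1, h2, h3, n, h4, h5, h6, h7, h8⟩
    exact ⟨n, h1, h2, h3, h4, h5, h6, h7, h8⟩
  · rintro ⟨n, h1, h2, h3, h4, h5, h6, h7, h8⟩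
    exact ⟨h1, h2, h3, n, h4, h5, h6, h7, h8⟩

/-- the property depends on the pair -/
theorem good_iff {K : Type} [Field K] [NumberField K] {q : ℕ} {F : Type} [Field F] [NumberField F]
    (hd : Module.finrank ℚ F = 3) (hg : IsGalois ℚ F) {u v : ℕ} (hp : IsPair' F u v) :
    Good K q F ↔ Run7.h238.Y.Gy K q (u, v) := by
  have h3 : (3 : ℤ) ∣ discr F := by
    obtain ⟨-, -, -, n, -, -, -, hdisc, -⟩ := hp
    rw [hdisc]
    exact ⟨27 * (n : ℤ) ^ 2, by ring⟩
  obtain ⟨b, -, hb⟩ := pair_of' F hd h3
  constructor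
  · rintro ⟨u', v', n', hp', h⟩ n hn s hs
    have e : (u', v') = (u, v) :=
      (hb (u', v') (pair_iff.2 ⟨n', hp'⟩)).trans (hb (u, v) hp).symm
    rw [Prod.mk.injEq] at e
    obtain ⟨rfl, rfl⟩ := e
    obtain ⟨-, -, -, h4, -⟩ := hp'
    have : n = n' := by
      simp only at hn
      omega
    subst this
    exact h s hs
  · intro h
    obtain ⟨n, hn⟩ := pair_iff.1 hp
    exact ⟨u, v, n, hn, fun s hs => h n hn.2.2.2.1 s hs⟩

end proof

/-- **Main theorem.**  `q` is a prime `≡ 2` or `5` modulo `9`.  Every cyclic cubic field in which `3`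
ramifies belongs to exactly one pair.  At least `c X` of these subfields of `ℂ` have conductor at most
`X`.  The proportion of the good fields tends to `∏_{i ≥ 0} (1 - 3^{-(2 i + 1)}) > 0.639`.  For every
good `F` the curve `y² + q y = x³` has finitely many points over `F`, its `L`-series continues
analytically and is not zero at `1`, and `3` kills the `3`-primary part of its Tate-Shafarevich group
over `F`. -/
theorem result (K : Type) [Field K] [NumberField K] [IsCyclotomicExtension {3} ℚ K] (q : ℕ)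
    (hq : q.Prime) (hq9 : q % 9 = 2 ∨ q % 9 = 5) :
    (∀ (F : Type) [Field F] [NumberField F], IsRamifiedCyclicCubic F →
      ∃! uv : ℕ × ℕ, ∃ n : ℕ, IsPair F uv.1 uv.2 n) ∧
    (∃ c : ℝ, 0 < c ∧ ∃ X₀ : ℕ, ∀ X : ℕ, X₀ ≤ X → c * X ≤ ((fields X).ncard : ℝ)) ∧
    Filter.Tendsto (fun X : ℕ =>
      ({F ∈ fields X | ∀ _ : NumberField F, Good K q F}.ncard : ℝ) / ((fields X).ncard : ℝ))
      Filter.atTop (nhds (∏' i : ℕ, (1 - (1 / 3 : ℝ) ^ (2 * i + 1)))) ∧
    (0.639 : ℝ) < ∏' i : ℕ, (1 - (1 / 3 : ℝ) ^ (2 * i + 1)) ∧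
    ∀ (F : Type) [Field F] [NumberField F], IsRamifiedCyclicCubic F → Good K q F →
      RankZero (curve (q : F)) ∧
      ∀ (k : ℕ) (x : Sha (curve (q : F))), 3 ^ k • x = 0 → 3 • x = 0 := by
  have hset : ∀ X : ℕ, fields X = {F : Subfield ℂ | Run7.h238.R.Cyr X F} := by
    intro X
    ext F
    constructor
    · rintro ⟨hN, ⟨h1, h2, h3⟩, h4⟩
      exact ⟨hN, h1, h2, h3, h4⟩
    · rintro ⟨hN, h1, h2, h3, h4⟩
      exact ⟨hN, ⟨h1, h2, h3⟩, h4⟩
  refine ⟨fun F _ _ hF => ?_, ?_, ?_, Pool.Agent.Y528.XK.t_C9.2.2.2.1, fun F _ _ hF hG => ?_⟩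
  · obtain ⟨h1, h2, h3⟩ := hF
    obtain ⟨b, hb, hb'⟩ := Pool.Agent.Run7.h289.RD.pair_of' F h1 h3
    exact ⟨b, pair_iff.1 hb, fun b' h => hb' b' (pair_iff.2 h)⟩
  · obtain ⟨c, hc, X₀, h⟩ := Run7.h238.R.many'
    exact ⟨c, hc, X₀, fun X hX => by rw [hset]; exact h X hX⟩
  · have h := Run7.h238.Y.prop_fields K hq (by omega)
      (GF := fun F : Subfield ℂ => ∀ _ : NumberField F, Good K q F) ?_
    · refine h.congr fun X => ?_
      rw [hset]
      rfl
    · intro F hN hd hg u v hp
      constructor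
      · intro h
        exact (good_iff hd hg hp).1 (h hN)
      · intro h hN'
        exact (good_iff hd hg hp).2 h
  · obtain ⟨h1, h2, h3⟩ := hF
    obtain ⟨u, v, n, hp, h⟩ := hG
    have hp' := pair_iff.2 ⟨n, hp⟩
    have hG' : Run7.h238.Y.Gy K q (u, v) := (good_iff h1 h2 hp').1 ⟨u, v, n, hp, h⟩
    obtain ⟨a1, a2, a3⟩ := Run7.h238.Y.overF K hq hq9 hG' h1 hp'
    exact ⟨rank_zero hq.ne_zero a1 a3, a2⟩

end Pool.Agent.Results.MP_1d384c_nt.CubicFieldsRamifiedAtThree
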