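import Pool.Agent.Run7.h238.C.ECrit
import Pool.Agent.Run7.h238.C.EMob

/-!
# The rank form of the Birch and Swinnerton-Dyer conjecture for the cubic twists
# `x³ + y³ = q (a² + a b + b²)`, for a positive proportion of all coprime pairs `(a, b)`

Let `q` be `3` or a prime `≡ 2` modulo `3`. The coprime pairs `(a, b)` of integers are ordered by
`n = a² + a b + b²`. The cubic twist `x³ + y³ = q n` of the Fermat cubic is the curve
`y² = x³ - 432 (q n)²`, and it is `3`-isogenous to `E_{q n} : y² + q n y = x³`. The class consists of the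
coprime pairs with `3 ∤ n` and, if `q ≠ 3`, with `q n ≢ ±1` modulo `9`.
Let `c = ∏_{i ≥ 1} (1 - 3^{-i}) = 0.5601...`.
* For a pair of the class such that `E_{q n}(ℚ)` is finite and `Ш(E_{q n}/ℚ)[3^∞] = 0`, the rank form of
  the conjecture holds for `y² = x³ - 432 (q n)²`, with rank and order of vanishing zero (the conclusion
  of the frozen statement with `a = 0`, `b = -432 (q n)²`).
* Exactly the proportion `c` of the pairs of the class has this property.
* The class has the density `3/4` (if `q = 3`) or `1/2` (if `q ≡ 2` modulo `3`) in the coprime pairs, so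
  the rank form holds for more than `42` percent resp. more than `28` percent of all coprime pairs.

The number of the coprime pairs with `a² + a b + b² = n` is `6 * 2 ^ ω(n)`, so the sets of prime factors
are counted with the weight `2 ^ ω`. New are the criterion and the nonvanishing for `q = 3` (`Run7/h135`,
`Run7/h555`), the weighted law for the sets of primes with exponents and a special vertex, and the
passage to the pairs (`Run7/h238`); the criterion for `q ≡ 2` modulo `3` and the equidistribution in a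
box of primes are from the starting files (`Y703`).
-/

set_option autoImplicit false

open Filter Topology

namespace Pool.Agent.Results.MP_696deb_nt.CubicTwistsByEisensteinNorms

/-- the curve `y² + D y = x³` over `ℚ` -/
def E (D : ℕ) : WeierstrassCurve ℚ := { a₁ := 0, a₂ := 0, a₃ := (D : ℚ), a₄ := 0, a₆ := 0 }

/-- `E_D(ℚ)` is finite and `Ш(E_D/ℚ)[3^∞] = 0` -/
def TrivialThree (D : ℕ) : Prop :=
  Finite (E D).toAffine.Point ∧
    ∀ (n : ℕ) (x : Pool.Agent.TH841.SH.D.Sha (E D)), 3 ^ n • x = 0 → x = 0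

open Classical in
/-- The rank form of the conjecture for `y² = x³ + a x + b`, with rank zero: the incomplete Euler product
over the primes `p ∤ 2Δ` extends to an entire function `F` with `ord_{s=1} F = 0 = rank`. -/
def RankFormZero (a b : ℤ) : Prop :=
  ∃ F : ℂ → ℂ, Differentiable ℂ F ∧
    (∀ s : ℂ, (3 : ℝ) / 2 < s.re →
      HasProd
        (fun p : ℕ =>
          if p.Prime ∧ ¬ ((p : ℤ) ∣ 2 * (-4 * a ^ 3 - 27 * b ^ 2)) then
            (1 - ((p : ℂ) - (Nat.card {q : ZMod p × ZMod p //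
                q.2 ^ 2 = q.1 ^ 3 + (a : ZMod p) * q.1 + (b : ZMod p)} : ℂ))
                * (p : ℂ) ^ (-s) + (p : ℂ) ^ (1 - 2 * s))⁻¹
          else 1)
        (F s)) ∧
    analyticOrderAt F 1 = 0 ∧
    Module.finrank ℤ
      (WeierstrassCurve.Affine.Point
        (WeierstrassCurve.toAffine
          ({ a₁ := 0, a₂ := 0, a₃ := 0, a₄ := (a : ℚ), a₆ := (b : ℚ) } :
            WeierstrassCurve ℚ))) = 0

/-- the norm `a² + a b + b²` -/
def N (v : ℤ × ℤ) : ℕ := (v.1 ^ 2 + v.1 * v.2 + v.2 ^ 2).toNat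

/-- coprime pairs -/
def Coprime (v : ℤ × ℤ) : Prop := IsCoprime v.1 v.2

/-- the class: coprime, `3 ∤ n`, and `q n ≢ ±1` modulo `9` if `q ≠ 3` -/
def Class (q : ℕ) (v : ℤ × ℤ) : Prop :=
  IsCoprime v.1 v.2 ∧ ¬ 3 ∣ N v ∧ (q = 3 ∨ ((q * N v) % 9 ≠ 1 ∧ (q * N v) % 9 ≠ 8))

/-- the number of the pairs `(a, b)` of integers with `a² + a b + b² ≤ X` and the property `P` -/
noncomputable def num (P : ℤ × ℤ → Prop) (X : ℕ) : ℕ := Nat.card {v : ℤ × ℤ // N v ≤ X ∧ P v}

/-- the constant `0.5601...` -/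
noncomputable def c : ℝ := ∏' i : ℕ, (1 - (1 / 3 : ℝ) ^ (i + 1))

section proof

open Run7.h238.C.EP Run7.h238.C.EL Run7.h238.C.EM Run7.h238.C.NSE Run7.h238.C.ED
open Run7.h238.C (GdE dvE)
open Run7.h238.Pairs (gc)

theorem E_eq (D : ℕ) : Pool.Agent.Y703.CT.EQ (Pool.Agent.Y703.CT.WD D) = E D := by
  unfold Pool.Agent.Y703.CT.EQ Pool.Agent.Y703.CT.WD E WeierstrassCurve.map
  simp

theorem three_iff (D : ℕ) : TrivialThree D ↔ Pool.Agent.Y703.CT.Triv3 D := by
  unfold TrivialThree Pool.Agent.Y703.CT.Triv3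
  rw [E_eq]

theorem N_eq (v : ℤ × ℤ) : N v = en v := rfl

theorem cop_iff (v : ℤ × ℤ) : IsCoprime v.1 v.2 ↔ gc v = 1 := Int.isCoprime_iff_gcd_eq_one

theorem class_iff (q : ℕ) (v : ℤ × ℤ) : Class q v ↔ (gc v = 1 ∧ ¬ 3 ∣ en v) ∧ HC q (en v) := by
  unfold Class HC
  rw [cop_iff, N_eq, and_assoc]

theorem num_eq (P : ℤ × ℤ → Prop) [DecidablePred P] (X : ℕ) :
    num P X = ((Be X).filter P).card := by
  unfold num
  refine Nat.subtype_card _ fun v => ?_
  rw [Finset.mem_filter, mem_Be, N_eq]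

theorem num_cop (X : ℕ) : num Coprime X = (CP X).card := by
  classical
  rw [num_eq]
  unfold CP
  refine congrArg Finset.card (Finset.filter_congr fun v _ => ?_)
  exact cop_iff v

theorem num_class (q X : ℕ) : num (Class q) X = (CQ q X).card := by
  classical
  rw [num_eq]
  unfold CQ PX
  rw [Finset.filter_filter]
  refine congrArg Finset.card (Finset.filter_congr fun v _ => ?_)
  exact class_iff q v

theorem N1_of {v : ℤ × ℤ} (h : gc v = 1 ∧ ¬ 3 ∣ en v) : N1 (en v) :=
  Run7.h238.C.ERep.pf_of_mem h.2 (z := ei v) (mem_PR.2 ⟨rfl, h.1⟩)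

theorem crit_v {q : ℕ} (hq : q.Prime) (hq1 : q % 3 ≠ 1) {v : ℤ × ℤ}
    (h : (gc v = 1 ∧ ¬ 3 ∣ en v) ∧ HC q (en v)) :
    TrivialThree (q * N v) ↔ GdE (ev (q * en v)) (cs3 (q * en v)) := by
  rw [three_iff, N_eq]
  exact Run7.h238.C.EC.crit hq hq1 (en_ne h.1.2) (N1_of h.1) h.2

open Classical in
theorem num_good {q : ℕ} (hq : q.Prime) (hq1 : q % 3 ≠ 1) (X : ℕ) :
    num (fun v => Class q v ∧ TrivialThree (q * N v)) X =
      ((CQ q X).filter fun v => GdE (ev (q * en v)) (cs3 (q * en v))).card := by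
  rw [num_eq]
  unfold CQ PX
  rw [Finset.filter_filter, Finset.filter_filter]
  refine congrArg Finset.card (Finset.filter_congr fun v _ => ?_)
  rw [class_iff, ← and_assoc]
  exact and_congr_right fun h => crit_v hq hq1 h

open Classical in
theorem sum_FF (q X : ℕ) : ∑ v ∈ PX X, FF q (en v) =
    (((CQ q X).filter fun v => GdE (ev (q * en v)) (cs3 (q * en v))).card : ℝ) -
      c * ((CQ q X).card : ℝ) := by
  have e1 : ∑ v ∈ PX X, FF q (en v) = ∑ v ∈ CQ q X, dvE (ev (q * en v)) (cs3 (q * en v)) := by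
    unfold CQ
    rw [Finset.sum_filter]
    refine Finset.sum_congr rfl fun v _ => ?_
    unfold FF
    by_cases h : HC q (en v)
    · rw [if_pos h, if_pos h, one_mul]
    · rw [if_neg h, if_neg h, zero_mul]
  rw [e1]
  unfold dvE
  rw [Finset.sum_sub_distrib, Finset.sum_const, nsmul_eq_mul, mul_comm ((CQ q X).card : ℝ)]
  congr 1
  rw [Finset.card_filter]
  push_cast
  rfl

theorem good_tendsto {q : ℕ} (hq : q.Prime) (hq1 : q % 3 ≠ 1) : Tendsto (fun X : ℕ =>
    (num (fun v => Class q v ∧ TrivialThree (q * N v)) X : ℝ) / X) atTop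
    (𝓝 (ar * mean (gq q) * kap * c)) := by
  classical
  have h1 := tendsto_zero hq hq1 hcard
  have h2 := (CQ_tendsto q).mul_const c
  have h3 := h1.add h2
  rw [zero_add] at h3
  refine h3.congr fun X => ?_
  rw [num_good hq hq1, sum_FF]
  ring

theorem c_bounds : 0.5601 < c ∧ c < 0.5602 := by
  have h := Pool.Agent.Y461.CX.t_C3.1 12
  have e : (1 / 3 : ℝ) ^ 12 = 1 / 531441 := by norm_num
  rw [e, abs_le] at h
  have e2 : ∏ i ∈ Finset.range 12, (1 - (1 / 3 : ℝ) ^ (i + 1)) =
      (2 / 3) * (8 / 9) * (26 / 27) * (80 / 81) * (242 / 243) * (728 / 729) * (2186 / 2187) *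
      (6560 / 6561) * (19682 / 19683) * (59048 / 59049) * (177146 / 177147) * (531440 / 531441) := by
    simp only [Finset.prod_range_succ, Finset.prod_range_zero]
    norm_num
  rw [e2] at h
  have e3 : Pool.Agent.Y703.CX.c3 = c := rfl
  rw [e3] at h
  constructor
  · have := h.2
    norm_num at this ⊢
    linarith
  · have := h.1
    norm_num at this ⊢
    linarith

theorem mean_val {q : ℕ} (hq : q.Prime) (hq1 : q % 3 ≠ 1) :
    mean (gq q) = (if q = 3 then 3 / 4 else 1 / 2) * (8 / 9) := by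
  rcases Run7.h238.C.EC.two_or hq hq1 with h | h
  · rw [if_pos h, h, mean_three]
    norm_num
  · have hne : q ≠ 3 := by
      rintro rfl
      omega
    rw [if_neg hne, mean_two h]
    norm_num

theorem div_lim (u v : ℕ → ℝ) (l m : ℝ) (hm : m ≠ 0) (hu : Tendsto (fun X : ℕ => u X / X) atTop (𝓝 l))
    (hv : Tendsto (fun X : ℕ => v X / X) atTop (𝓝 m)) :
    Tendsto (fun X : ℕ => u X / v X) atTop (𝓝 (l / m)) := by
  refine (hu.div hv hm).congr' ?_
  filter_upwards [eventually_ge_atTop 1] with X hX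
  have hX0 : (X : ℝ) ≠ 0 := by
    have : (0 : ℝ) < X := by exact_mod_cast hX
    exact this.ne'
  simp only [Pi.div_apply]
  exact div_div_div_cancel_right₀ hX0 _ _

theorem rank_of {q : ℕ} (hq : q.Prime) (hq1 : q % 3 ≠ 1) {v : ℤ × ℤ} (h1 : Class q v)
    (h2 : TrivialThree (q * N v)) : RankFormZero 0 (-432 * ((q * N v : ℕ) : ℤ) ^ 2) := by
  rw [class_iff] at h1
  rw [three_iff, N_eq] at h2
  exact Run7.h238.C.EC.rank hq hq1 (en_ne h1.1.2) (N1_of h1.1) h1.2 h2

end proof

/-- **The rank form of the conjecture for the cubic twists by `q (a² + a b + b²)`.** -/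
theorem result (q : ℕ) (hq : q.Prime) (hq1 : q % 3 ≠ 1) :
    (∀ v : ℤ × ℤ, Class q v → TrivialThree (q * N v) →
      RankFormZero 0 (-432 * ((q * N v : ℕ) : ℤ) ^ 2)) ∧
    Tendsto (fun X : ℕ => (num (fun v => Class q v ∧ TrivialThree (q * N v)) X : ℝ) /
      (num (Class q) X : ℝ)) atTop (𝓝 c) ∧
    Tendsto (fun X : ℕ => (num (Class q) X : ℝ) / (num Coprime X : ℝ)) atTop
      (𝓝 (if q = 3 then 3 / 4 else 1 / 2)) ∧
    0.5601 < c ∧ c < 0.5602 ∧
    ∀ᶠ X : ℕ in atTop, (if q = 3 then 0.42 else 0.28) * (num Coprime X : ℝ) ≤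
      (num (fun v => Coprime v ∧ RankFormZero 0 (-432 * ((q * N v : ℕ) : ℤ) ^ 2)) X : ℝ) := by
  classical
  obtain ⟨hc1, hc2⟩ := c_bounds
  have har := Run7.h238.C.ED.ar_pos
  have hk := Run7.h238.C.EM.kap_pos
  set A : ℝ := Run7.h238.C.ED.ar * (8 / 9) * Run7.h238.C.EM.kap with hA
  have hA0 : 0 < A := by positivity
  set d : ℝ := if q = 3 then 3 / 4 else 1 / 2 with hd
  have hd0 : 0 < d := by
    rw [hd]
    split_ifs <;> norm_num
  have hm := mean_val hq hq1
  rw [← hd] at hm
  have hC : Tendsto (fun X : ℕ => (num (Class q) X : ℝ) / X) atTop (𝓝 (d * A)) := by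
    simp only [num_class]
    have h := Run7.h238.C.EM.CQ_tendsto q
    rw [hm] at h
    have e : Run7.h238.C.ED.ar * (d * (8 / 9)) * Run7.h238.C.EM.kap = d * A := by
      rw [hA]
      ring
    rw [e] at h
    exact h
  have hg : Tendsto (fun X : ℕ => (num (fun v => Class q v ∧ TrivialThree (q * N v)) X : ℝ) / X)
      atTop (𝓝 (d * A * c)) := by
    have h := good_tendsto hq hq1
    rw [hm] at h
    have e : Run7.h238.C.ED.ar * (d * (8 / 9)) * Run7.h238.C.EM.kap * c = d * A * c := by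
      rw [hA]
      ring
    rw [e] at h
    exact h
  have hP : Tendsto (fun X : ℕ => (num Coprime X : ℝ) / X) atTop (𝓝 A) := by
    simp only [num_cop]
    exact Run7.h238.C.EM.CP_tendsto
  have h1 := div_lim _ _ _ _ (mul_pos hd0 hA0).ne' hg hC
  have h2 := div_lim _ _ _ _ hA0.ne' hC hP
  have h3 := div_lim _ _ _ _ hA0.ne' hg hP
  have e1 : d * A * c / (d * A) = c := by
    field_simp
  have e2 : d * A / A = d := by
    field_simp
  have e3 : d * A * c / A = d * c := by
    field_simp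
  rw [e1] at h1
  rw [e2] at h2
  rw [e3] at h3
  refine ⟨fun v hv hT => rank_of hq hq1 hv hT, h1, h2, hc1, hc2, ?_⟩
  have hlt : (if q = 3 then 0.42 else 0.28 : ℝ) < d * c := by
    rw [hd]
    split_ifs
    · linarith
    · linarith
  have h4 := h3.eventually (lt_mem_nhds hlt)
  have h5 := hP.eventually (lt_mem_nhds hA0)
  filter_upwards [h4, h5, eventually_ge_atTop 1] with X h6 h7 h8
  have hX0 : (0 : ℝ) < X := by exact_mod_cast h8
  have h9 : (0 : ℝ) < (num Coprime X : ℝ) := by
    by_contra hc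
    have h10 : (num Coprime X : ℝ) / X ≤ 0 := div_nonpos_of_nonpos_of_nonneg (not_lt.1 hc) hX0.le
    linarith
  have h10 := (lt_div_iff₀ h9).1 h6
  have h11 : (num (fun v => Class q v ∧ TrivialThree (q * N v)) X : ℝ) ≤
      (num (fun v => Coprime v ∧ RankFormZero 0 (-432 * ((q * N v : ℕ) : ℤ) ^ 2)) X : ℝ) := by
    have h12 : num (fun v => Class q v ∧ TrivialThree (q * N v)) X ≤
        num (fun v => Coprime v ∧ RankFormZero 0 (-432 * ((q * N v : ℕ) : ℤ) ^ 2)) X := by
      rw [num_eq, num_eq]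
      refine Finset.card_le_card fun v hv => ?_
      rw [Finset.mem_filter] at hv ⊢
      exact ⟨hv.1, hv.2.1.1, rank_of hq hq1 hv.2.1 hv.2.2⟩
    exact_mod_cast h12
  linarith

end Pool.Agent.Results.MP_696deb_nt.CubicTwistsByEisensteinNorms
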