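import Pool.Agent.Run7.h238.Crit
import Pool.Agent.Run7.h238.Half
import Pool.Agent.Run7.h238.Lim

/-!
# The rank form of the Birch and Swinnerton-Dyer conjecture for the twists of `X_0(49)` by `a² + b²`,
# for a positive proportion of all pairs of integers

`E_n : y² = x³ - 35 n² x - 98 n³` is the quadratic twist by `n` of
`X_0(49) : y² = x³ - 35 x - 98`. All pairs `(a, b)` of integers are ordered by `n = a² + b²`. The class
consists of the pairs `(a, b) ≠ (0, 0)` such that the exponent of two in `n` is even, i.e. the squarefree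
part of `n` is odd. Let `c = ∏_{i ≥ 0} (1 - 2^{-(2i+1)}) = 0.4194...`.
* For a pair of the class such that `E_n(ℚ)` is finite and `Ш(E_n/ℚ)[2] = 0`, the rank form of the
  conjecture holds for `E_n`, with rank and order of vanishing zero (the conclusion of the frozen
  statement with `a = -35 n²`, `b = -98 n³`).
* Among the pairs of the class exactly the proportion `c` has this property.
* Among all pairs of integers exactly the proportion `(2/3) c` is in the class and has this property, so
  the rank form of the conjecture holds for more than 27.96 percent of all pairs of integers.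

The number of the pairs with `a² + b² = n` is a multiple of `2 ^ ω(n)` (up to squares), so the sets of
the prime factors have to be counted with the weight `2 ^ ω`, for which the typical number of prime
factors is twice as large. The criterion (a matrix over `𝔽₂` of quadratic symbols is not singular) and
the nonvanishing of `L(E_n, 1)` for a single squarefree `n` are from the starting files (`R413/SQ`,
`MP_4a9ea6_nt/TwoPartTwistsX49`, `MP_92892c_nt/FullClassTwoPartX49`), as is the equidistribution in a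
box of primes; new are the weighted sieve bound, the weighted counts and the passage to the pairs
(`Run7/h238`).
-/

set_option autoImplicit false

open Filter Topology

namespace Pool.Agent.Results.MP_696deb_nt.TwistsBySumsOfTwoSquares

open Pool.Agent.TH841.NF.D (Sha)

/-- the twist by `n` of `X_0(49)`: the curve `y² = x³ - 35 n² x - 98 n³` over `ℚ` -/
def E (n : ℕ) : WeierstrassCurve ℚ :=
  { a₁ := 0, a₂ := 0, a₃ := 0, a₄ := -35 * (n : ℚ) ^ 2, a₆ := -98 * (n : ℚ) ^ 3 }

/-- `E_n(ℚ)` is finite and `Ш(E_n/ℚ)` has no element of order two -/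
def RankZeroShaTwo (n : ℕ) : Prop :=
  Finite (E n).toAffine.Point ∧ ∀ x : Sha (E n), 2 • x = 0 → x = 0

open Classical in
/-- The rank form of the conjecture for `y² = x³ + a x + b`, with rank zero: the incomplete Euler product
over the primes `p ∤ 2Δ` extends to an entire function `F` with `ord_{s=1} F = 0 = rank`. -/
def RankFormZero (a b : ℤ) : Prop :=
  ∃ F : ℂ → ℂ, Differentiable ℂ F ∧
    (∀ s : ℂ, (3 : ℝ) / 2 < s.re →
      HasProd
        (fun p : ℕ =>
          if p.Prime ∧ ¬ ((p : ℤ) ∣ 2 * (-4 * a ^ 3 - 27 * b ^ 2)) then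
            (1 - ((p : ℂ) - (Nat.card {q : ZMod p × ZMod p //
                q.2 ^ 2 = q.1 ^ 3 + (a : ZMod p) * q.1 + (b : ZMod p)} : ℂ))
                * (p : ℂ) ^ (-s) + (p : ℂ) ^ (1 - 2 * s))⁻¹
          else 1)
        (F s)) ∧
    analyticOrderAt F 1 = 0 ∧
    Module.finrank ℤ
      (WeierstrassCurve.Affine.Point
        (WeierstrassCurve.toAffine
          ({ a₁ := 0, a₂ := 0, a₃ := 0, a₄ := (a : ℚ), a₆ := (b : ℚ) } :
            WeierstrassCurve ℚ))) = 0

/-- `n` is not zero and the exponent of two in `n` is even -/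
def OddSquarefreePart (n : ℕ) : Prop := n ≠ 0 ∧ Even (n.factorization 2)

/-- the number of the pairs `(a, b)` of integers with `a² + b² ≤ X` such that `a² + b²` has the
property `Q` -/
noncomputable def num (Q : ℕ → Prop) (X : ℕ) : ℕ :=
  Nat.card {v : ℤ × ℤ // v.1 ^ 2 + v.2 ^ 2 ≤ (X : ℤ) ∧ Q (v.1 ^ 2 + v.2 ^ 2).toNat}

/-- the constant `0.4194...` -/
noncomputable def c : ℝ := ∏' i : ℕ, (1 - (1 / 2 : ℝ) ^ (2 * i + 1))

section proof

open Run7.h238.Pairs Run7.h238.Crit Run7.h238.WFin
open Pool.Agent.Y698.SG (n4)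
open Pool.Agent.R413.SQ (Gd)

theorem toNat_eq (v : ℤ × ℤ) : (v.1 ^ 2 + v.2 ^ 2).toNat = nm v := by
  rw [← Run7.h238.Half.nm_int, Int.toNat_natCast]

theorem le_iff (v : ℤ × ℤ) (X : ℕ) : v.1 ^ 2 + v.2 ^ 2 ≤ (X : ℤ) ↔ v ∈ Bx X := by
  rw [mem_Bx, ← Run7.h238.Half.nm_int]
  exact Nat.cast_le

theorem num_eq (Q : ℕ → Prop) [DecidablePred fun v : ℤ × ℤ => Q (nm v)] (X : ℕ) :
    num Q X = ((Bx X).filter fun v => Q (nm v)).card := by
  unfold num
  refine Nat.subtype_card _ fun v => ?_
  rw [Finset.mem_filter, le_iff, toNat_eq]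

theorem class_iff (n : ℕ) : OddSquarefreePart n ↔ n ≠ 0 ∧ 2 ∉ oddP n := by
  unfold OddSquarefreePart
  rw [mem_oddP, Nat.not_odd_iff_even]

theorem num_class (X : ℕ) : num OddSquarefreePart X = (CX X).card := by
  classical
  rw [num_eq]
  unfold CX
  refine congrArg Finset.card (Finset.filter_congr fun v _ => ?_)
  exact class_iff (nm v)

open Classical in
theorem num_good (X : ℕ) : num (fun n => OddSquarefreePart n ∧ RankZeroShaTwo n) X =
    ((CX X).filter fun v => Gd n4 (oddP (nm v))).card := by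
  rw [num_eq]
  unfold CX
  rw [Finset.filter_filter]
  refine congrArg Finset.card (Finset.filter_congr fun v _ => ?_)
  rw [class_iff]
  refine and_congr_right fun h => ?_
  exact crit (okn h.1 h.2)

theorem num_all (X : ℕ) : num (fun _ => True) X = (Bx X).card := by
  classical
  rw [num_eq, Finset.filter_true]

theorem good_tendsto : Tendsto (fun X : ℕ =>
    (num (fun n => OddSquarefreePart n ∧ RankZeroShaTwo n) X : ℝ) / X) atTop
    (𝓝 (2 / 3 * Run7.h238.Disc.ar * c)) := by
  classical
  have h1 := Run7.h238.Lim.tendsto_zero n4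
  have h2 := Run7.h238.Half.CX_tendsto
  have h3 := h1.add (h2.mul_const c)
  rw [zero_add] at h3
  refine h3.congr fun X => ?_
  have e : ∑ v ∈ CX X, dv n4 (oddP (nm v)) =
      (((CX X).filter fun v => Gd n4 (oddP (nm v))).card : ℝ) - c * ((CX X).card : ℝ) := by
    unfold dv
    rw [Finset.sum_sub_distrib, Finset.sum_const, nsmul_eq_mul, mul_comm ((CX X).card : ℝ)]
    congr 1
    rw [Finset.card_filter]
    push_cast
    rfl
  rw [num_good, e]
  ring

theorem rank_of {n : ℤ × ℤ} (h1 : OddSquarefreePart (nm n)) (h2 : RankZeroShaTwo (nm n)) :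
    RankFormZero (-35 * (nm n : ℤ) ^ 2) (-98 * (nm n : ℤ) ^ 3) := by
  rw [class_iff] at h1
  exact rank (okn h1.1 h1.2) h2

theorem rank_num (X : ℕ) : num (fun n => OddSquarefreePart n ∧ RankZeroShaTwo n) X ≤
    num (fun n => RankFormZero (-35 * (n : ℤ) ^ 2) (-98 * (n : ℤ) ^ 3)) X := by
  classical
  rw [num_eq, num_eq]
  refine Finset.card_le_card fun v hv => ?_
  rw [Finset.mem_filter] at hv ⊢
  exact ⟨hv.1, rank_of hv.2.1 hv.2.2⟩

end proof

/-- **The rank form of the conjecture for the twists of `X_0(49)` by the sums of two squares.** -/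
theorem result :
    (∀ a b : ℤ, OddSquarefreePart (a ^ 2 + b ^ 2).toNat → RankZeroShaTwo (a ^ 2 + b ^ 2).toNat →
      RankFormZero (-35 * (a ^ 2 + b ^ 2) ^ 2) (-98 * (a ^ 2 + b ^ 2) ^ 3)) ∧
    Tendsto (fun X : ℕ => (num (fun n => OddSquarefreePart n ∧ RankZeroShaTwo n) X : ℝ) /
      (num OddSquarefreePart X : ℝ)) atTop (𝓝 c) ∧
    Tendsto (fun X : ℕ => (num (fun n => OddSquarefreePart n ∧ RankZeroShaTwo n) X : ℝ) /
      (num (fun _ => True) X : ℝ)) atTop (𝓝 (2 / 3 * c)) ∧
    0.4194 < c ∧ c < 0.4195 ∧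
    ∀ᶠ X : ℕ in atTop, 0.2796 * (num (fun _ => True) X : ℝ) ≤
      (num (fun n => RankFormZero (-35 * (n : ℤ) ^ 2) (-98 * (n : ℤ) ^ 3)) X : ℝ) := by
  have hc1 : 0.4194 < c := Pool.Agent.Y948.CQ.t_C2.2.2.2.1
  have hc2 : c < 0.4195 := Pool.Agent.Y948.CQ.t_C2.2.2.2.2
  have har := Run7.h238.Disc.ar_pos
  have hg := good_tendsto
  have hC : Tendsto (fun X : ℕ => (num OddSquarefreePart X : ℝ) / X) atTop
      (𝓝 (2 / 3 * Run7.h238.Disc.ar)) := by
    simp only [num_class]
    exact Run7.h238.Half.CX_tendsto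
  have hA : Tendsto (fun X : ℕ => (num (fun _ => True) X : ℝ) / X) atTop
      (𝓝 Run7.h238.Disc.ar) := by
    simp only [num_all]
    exact Run7.h238.Disc.card_tendsto
  have key : ∀ (u v : ℕ → ℝ) (l m : ℝ), m ≠ 0 → Tendsto (fun X : ℕ => u X / X) atTop (𝓝 l) →
      Tendsto (fun X : ℕ => v X / X) atTop (𝓝 m) →
      Tendsto (fun X : ℕ => u X / v X) atTop (𝓝 (l / m)) := by
    intro u v l m hm hu hv
    refine (hu.div hv hm).congr' ?_
    filter_upwards [eventually_ge_atTop 1] with X hX
    have hX0 : (X : ℝ) ≠ 0 := by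
      have : (0 : ℝ) < X := by exact_mod_cast hX
      exact this.ne'
    simp only [Pi.div_apply]
    exact div_div_div_cancel_right₀ hX0 _ _
  have h1 := key _ _ _ _ (by positivity) hg hC
  have h2 := key _ _ _ _ har.ne' hg hA
  have e1 : 2 / 3 * Run7.h238.Disc.ar * c / (2 / 3 * Run7.h238.Disc.ar) = c := by
    field_simp
  have e2 : 2 / 3 * Run7.h238.Disc.ar * c / Run7.h238.Disc.ar = 2 / 3 * c := by
    field_simp
  rw [e1] at h1
  rw [e2] at h2
  refine ⟨fun a b ha hr => ?_, h1, h2, hc1, hc2, ?_⟩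
  · have h3 := toNat_eq (a, b)
    simp only at h3
    rw [h3] at ha hr
    have h4 := rank_of ha hr
    rw [Run7.h238.Half.nm_int] at h4
    exact h4
  · have h3 := h2.eventually (lt_mem_nhds (show (0.2796 : ℝ) < 2 / 3 * c by linarith))
    have h4 := hA.eventually (lt_mem_nhds har)
    filter_upwards [h3, h4, eventually_ge_atTop 1] with X h5 h6 h7
    have hX0 : (0 : ℝ) < X := by exact_mod_cast h7
    have h8 : (0 : ℝ) < (num (fun _ => True) X : ℝ) := by
      by_contra hc
      have h9 : (num (fun _ => True) X : ℝ) / X ≤ 0 := div_nonpos_of_nonpos_of_nonneg (not_lt.1 hc) hX0.le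
      linarith
    have h9 := (lt_div_iff₀ h8).1 h5
    have h10 : (num (fun n => OddSquarefreePart n ∧ RankZeroShaTwo n) X : ℝ) ≤
        (num (fun n => RankFormZero (-35 * (n : ℤ) ^ 2) (-98 * (n : ℤ) ^ 3)) X : ℝ) := by
      exact_mod_cast rank_num X
    linarith

end Pool.Agent.Results.MP_696deb_nt.TwistsBySumsOfTwoSquares
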